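import Pool.Agent.H87.GS3.TF

/-!
Row FRC of the board gs3: fractions with bounded denominators.
-/

set_option autoImplicit false

open Finset Pool.Agent.H6.N4D

namespace Pool.Agent.H67.G3

theorem frc_nd_int (k : ℤ) : nd (k : ℝ) = 0 := by
  have h := nd_le (k : ℝ) k
  rw [sub_self, abs_zero] at h
  exact le_antisymm h (nd_nonneg _)

theorem frc_int {b₀ c : ℕ} (hc : 1 ≤ c) (hc2 : c ≤ b₀ ^ 2) (m : ℤ)
    (h : nd ((m : ℝ) / c) < 1 / (b₀ : ℝ) ^ 2) : ∃ k : ℤ, m = k * c := by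
  obtain ⟨k, hk⟩ := exists_int ((m : ℝ) / c)
  have hc0 : (0 : ℝ) < c := by exact_mod_cast hc
  have h1 : |(m : ℝ) / c - k| < 1 / c := by
    rw [hk]
    refine h.trans_le ?_
    apply one_div_le_one_div_of_le hc0
    exact_mod_cast hc2
  have h2 : |(m : ℝ) - k * c| < 1 := by
    have e : (m : ℝ) - k * c = ((m : ℝ) / c - k) * c := by field_simp
    rw [e, abs_mul, abs_of_pos hc0]
    calc |(m : ℝ) / c - k| * c < 1 / c * c := mul_lt_mul_of_pos_right h1 hc0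
      _ = 1 := by field_simp
  have h3 : |m - k * c| < 1 := by exact_mod_cast h2
  refine ⟨k, ?_⟩
  rw [Int.abs_lt_one_iff] at h3
  linarith

theorem pf_FRC : Pool.Agent.H87.GS3.T_FRC := by
  intro b₀ b b' a a' hb1 hb2 hb1' hb2'
  have hb0 : (b : ℝ) ≠ 0 := by
    have : 0 < b := hb1
    exact_mod_cast this.ne'
  have hb0' : (b' : ℝ) ≠ 0 := by
    have : 0 < b' := hb1'
    exact_mod_cast this.ne'
  have hc : 1 ≤ b * b' := Nat.mul_pos hb1 hb1'
  have hc2 : b * b' ≤ b₀ ^ 2 := by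
    rw [pow_two]
    exact Nat.mul_le_mul hb2 hb2'
  have hx : (a : ℝ) / b - (a' : ℝ) / b' = (((a : ℤ) * b' - a' * b : ℤ) : ℝ) / ((b * b' : ℕ) : ℝ) := by
    push_cast
    field_simp
  have key : ∀ k : ℤ, ((a : ℤ) * b' - a' * b) = k * ((b * b' : ℕ) : ℤ) →
      nd ((a : ℝ) / b - (a' : ℝ) / b') = 0 := by
    intro k hk
    rw [hx, hk]
    have e : ((k * ((b * b' : ℕ) : ℤ) : ℤ) : ℝ) / ((b * b' : ℕ) : ℝ) = (k : ℝ) := by
      push_cast
      field_simp
    rw [e]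
    exact frc_nd_int k
  constructor
  · intro h
    rw [hx] at h
    obtain ⟨k, hk⟩ := frc_int hc hc2 _ h
    exact key k hk
  · intro p hp hbp h
    have e : (p : ℝ) * ((a : ℝ) / b) - p * ((a' : ℝ) / b') =
        (((p : ℤ) * ((a : ℤ) * b' - a' * b) : ℤ) : ℝ) / ((b * b' : ℕ) : ℝ) := by
      push_cast
      field_simp
    rw [e] at h
    obtain ⟨k, hk⟩ := frc_int hc hc2 _ h
    have hcop : IsCoprime ((b * b' : ℕ) : ℤ) (p : ℤ) := by
      rw [Nat.isCoprime_iff_coprime]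
      have h1 : Nat.Coprime b p := ((Nat.Prime.coprime_iff_not_dvd hp).2 (Nat.not_dvd_of_pos_of_lt hb1 (by omega))).symm
      have h2 : Nat.Coprime b' p := ((Nat.Prime.coprime_iff_not_dvd hp).2 (Nat.not_dvd_of_pos_of_lt hb1' (by omega))).symm
      exact Nat.Coprime.mul_left h1 h2
    have hdvd : ((b * b' : ℕ) : ℤ) ∣ (p : ℤ) * ((a : ℤ) * b' - a' * b) := ⟨k, by rw [hk]; ring⟩
    obtain ⟨l, hl⟩ := hcop.dvd_of_dvd_mul_left hdvd
    exact key l (by rw [hl]; ring)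

end Pool.Agent.H67.G3
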