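import Pool.Agent.H78.GS.TA3

/-!
Row MNB of the board gs3: a minimal invariant part of a bundle.
-/

set_option autoImplicit false

open Finset Pool.Agent.H6.N4D

namespace Pool.Agent.H67.G3

open Pool.Agent.H78.GS

/-- the sequence of the precisions -/
noncomputable def mnbE (E : ℝ → ℝ) (e₁ : ℝ) : ℕ → ℝ
  | 0 => e₁
  | s + 1 => E (mnbE E e₁ s)

theorem mnb_pos {E : ℝ → ℝ} {e₁ : ℝ} (hE : ∀ e, 0 < e → 0 < E e ∧ E e ≤ e / 2) (he : 0 < e₁) :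
    ∀ s, 0 < mnbE E e₁ s
  | 0 => he
  | s + 1 => (hE _ (mnb_pos hE he s)).1

theorem mnb_half {E : ℝ → ℝ} {e₁ : ℝ} (hE : ∀ e, 0 < e → 0 < E e ∧ E e ≤ e / 2) (he : 0 < e₁)
    (s : ℕ) : mnbE E e₁ (s + 1) ≤ mnbE E e₁ s / 2 := (hE _ (mnb_pos hE he s)).2

theorem mnb_anti {E : ℝ → ℝ} {e₁ : ℝ} (hE : ∀ e, 0 < e → 0 < E e ∧ E e ≤ e / 2) (he : 0 < e₁) :
    Antitone (mnbE E e₁) := by
  refine antitone_nat_of_succ_le fun s => ?_
  have h1 := mnb_half hE he s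
  have h2 := mnb_pos hE he s
  linarith

theorem mnb_cut_cut (S : Par) (a b : ℤ) : cut (cut S a) b = cut S (a + b) := by
  unfold cut
  simp only [Par.mk.injEq, true_and]
  constructor <;> ring

theorem mnb_inv_mono {S : Par} {RP RW : ℕ → ℤ → ℕ → ℕ → Prop} {e e' : ℝ} {F : ℤ → Finset ℕ}
    (h : Inv S RP RW e F) (hN : 0 ≤ S.N) (hee : e ≤ e') : Inv S RP RW e' F :=
  ⟨h.pr.trans (mul_le_mul_of_nonneg_right hee hN),
    fun w h1 h2 => (h.sh w h1 h2).trans (mul_le_mul_of_nonneg_right hee hN)⟩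

theorem mnb_rk_mono {S : Par} {κ κ' : ℝ} {F : ℤ → Finset ℕ} {s : ℕ}
    (h : Rk S κ F s) (hN : 0 ≤ S.N) (hk : κ ≤ κ') : Rk S κ' F s :=
  le_trans (show S.cnt (fun t => (F t).card ≠ s) ≤ κ * S.N from h)
    (mul_le_mul_of_nonneg_right hk hN)

theorem pf_MNB (hRST : T_RST) (hCTP : T_CTP) : T_MNB := by
  intro r₀ E e₁ hE he₁
  have hpos := mnb_pos hE he₁
  have hanti := mnb_anti hE he₁
  refine ⟨mnbE E e₁ r₀ / 2, half_pos (hpos r₀), ?_⟩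
  intro S Δ κ RP RW F₀ s₀ hS hΔ hκ hN hs1 hs2 hInv hRk
  have hΔ' : (0 : ℝ) ≤ (Δ : ℝ) := by exact_mod_cast hΔ
  have hh : 0 < S.h := hS.hh
  -- the inner stretches
  have hcut : ∀ m : ℤ, 0 ≤ m → m ≤ r₀ * Δ → 12 * (S.K * S.L) ≤ S.N * S.h - 2 * (m * S.h) := by
    intro m _ h2
    have h3 : (m : ℝ) ≤ (r₀ : ℝ) * Δ := by exact_mod_cast h2
    have h4 : (m : ℝ) * S.h ≤ (r₀ : ℝ) * Δ * S.h := mul_le_mul_of_nonneg_right h3 hh.le
    linarith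
  have hmle : ∀ s : ℕ, s ≤ r₀ → 0 ≤ ((r₀ : ℤ) - s) * Δ ∧ ((r₀ : ℤ) - s) * Δ ≤ r₀ * Δ := by
    intro s hs
    have h1 : (s : ℤ) ≤ r₀ := by exact_mod_cast hs
    constructor
    · exact mul_nonneg (by linarith) hΔ
    · exact mul_le_mul_of_nonneg_right (by linarith [(Int.natCast_nonneg s : (0 : ℤ) ≤ s)]) hΔ
  let P : ℕ → Prop := fun s => 1 ≤ s ∧ s ≤ r₀ ∧ ∃ F : ℤ → Finset ℕ, (∀ t, F t ⊆ F₀ t) ∧
    Inv (cut S (((r₀ : ℤ) - s) * Δ)) RP RW (mnbE E e₁ s) F ∧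
    Rk (cut S (((r₀ : ℤ) - s) * Δ)) (2 * κ) F s
  have hP0 : P s₀ := by
    obtain ⟨m1, m2⟩ := hmle s₀ hs2
    obtain ⟨r1, r2⟩ := hRST S _ RP RW (mnbE E e₁ r₀ / 2) κ F₀ s₀ hS m1 (hcut _ m1 m2)
      (half_pos (hpos r₀)).le hκ
    have hc := hCTP S _ hS m1 (hcut _ m1 m2)
    refine ⟨hs1, hs2, F₀, fun t => Finset.Subset.refl _, ?_, ?_⟩
    · refine mnb_inv_mono (r1 hInv) hc.2.2.1 ?_
      have := hanti hs2
      linarith
    · exact mnb_rk_mono (r2 hRk) hc.2.2.1 (by linarith)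
  classical
  have hex : ∃ s, P s := ⟨s₀, hP0⟩
  obtain ⟨s, hs, hmin⟩ : ∃ s, P s ∧ ∀ s' < s, ¬ P s' :=
    ⟨Nat.find hex, Nat.find_spec hex, fun s' h => Nat.find_min hex h⟩
  obtain ⟨g1, g2, F, hF, hI, hR⟩ := hs
  obtain ⟨m1, m2⟩ := hmle s g2
  obtain ⟨k, rfl⟩ : ∃ k, s = k + 1 := ⟨s - 1, by omega⟩
  have hk : mnbE E e₁ (k + 1) = E (mnbE E e₁ k) := rfl
  have hmm : ((r₀ : ℤ) - ((k + 1 : ℕ) : ℤ)) * Δ + Δ = ((r₀ : ℤ) - (k : ℤ)) * Δ := by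
    push_cast
    ring
  obtain ⟨n1, n2⟩ := hmle k (by omega)
  refine ⟨((r₀ : ℤ) - ((k + 1 : ℕ) : ℤ)) * Δ, k + 1, mnbE E e₁ k, F, m1, ?_, g1, g2, ?_, ?_, hF,
    hk ▸ hI, hR, ?_⟩
  · rw [hmm]
    exact n2
  · have h1 := hanti (show k ≤ r₀ by omega)
    have h2 := hpos r₀
    linarith
  · exact hanti (Nat.zero_le k)
  · rw [hmm]
    intro s' F' h1 h2 h3 h4 h5
    have hsk : s' ≤ k := by omega
    have hc := hCTP S _ hS n1 (hcut _ n1 n2)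
    have hm' : 0 ≤ ((k : ℤ) - s') * Δ :=
      mul_nonneg (by have : (s' : ℤ) ≤ k := by exact_mod_cast hsk
                     linarith) hΔ
    have hadd : ((r₀ : ℤ) - (k : ℤ)) * Δ + ((k : ℤ) - s') * Δ = ((r₀ : ℤ) - s') * Δ := by ring
    obtain ⟨l1, l2⟩ := hmle s' (by omega)
    refine hmin s' h2 ⟨h1, by omega, F', fun t => (h3 t).trans (hF t), ?_⟩
    rcases hsk.eq_or_lt with he | hl
    · subst he
      exact ⟨h4, mnb_rk_mono h5 hc.2.2.1 (by linarith)⟩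
    · have hcut' : 12 * ((cut S (((r₀ : ℤ) - (k : ℤ)) * Δ)).K *
          (cut S (((r₀ : ℤ) - (k : ℤ)) * Δ)).L) ≤
          (cut S (((r₀ : ℤ) - (k : ℤ)) * Δ)).N * (cut S (((r₀ : ℤ) - (k : ℤ)) * Δ)).h -
            2 * ((((k : ℤ) - s') * Δ : ℤ) * (cut S (((r₀ : ℤ) - (k : ℤ)) * Δ)).h) := by
        rw [hc.2.1]
        have h6 := hcut _ l1 l2
        have h7 : ((((r₀ : ℤ) - s') * Δ : ℤ) : ℝ) =
            ((((r₀ : ℤ) - (k : ℤ)) * Δ : ℤ) : ℝ) + ((((k : ℤ) - s') * Δ : ℤ) : ℝ) := by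
          exact_mod_cast hadd.symm
        rw [h7] at h6
        show 12 * (S.K * S.L) ≤ (S.N - 2 * ((((r₀ : ℤ) - (k : ℤ)) * Δ : ℤ) : ℝ)) * S.h -
          2 * ((((k : ℤ) - s') * Δ : ℤ) * S.h)
        linarith
      obtain ⟨r1, r2⟩ := hRST _ _ RP RW (mnbE E e₁ k) κ F' s' hc.1 hm' hcut' (hpos k).le hκ
      have hc2 := hCTP _ _ hc.1 hm' hcut'
      have r1' := r1 h4
      have r2' := r2 h5
      rw [mnb_cut_cut, hadd] at r1' r2'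
      have hN2 : 0 ≤ (cut S (((r₀ : ℤ) - s') * Δ)).N := by
        have := hc2.2.2.1
        rw [mnb_cut_cut, hadd] at this
        exact this
      refine ⟨mnb_inv_mono r1' hN2 ?_, mnb_rk_mono r2' hN2 (by linarith)⟩
      have h8 : 2 * mnbE E e₁ k ≤ mnbE E e₁ (k - 1) := by
        have := mnb_half hE he₁ (k - 1)
        have e : k - 1 + 1 = k := by omega
        rw [e] at this
        linarith
      exact h8.trans (hanti (show s' ≤ k - 1 by omega))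

end Pool.Agent.H67.G3
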